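import Pool.Agent.Helper82_ALT.Locl

/-!
# IGP, alternating version: INFL, the points at infinity
-/

set_option autoImplicit false

open Polynomial

namespace Pool.Agent.Helper74_ALT.H72

open Pool.Agent.Helper74_ALT.H82

section

variable {G : Type} [Group G] [Finite G] (S : Setup G)

/-- the series `X⁻¹` -/
noncomputable def xi {Λ : Type} [Field Λ] : LaurentSeries Λ := HahnSeries.single (-1) 1

theorem xi_og {Λ : Type} [Field Λ] : OG (xi : LaurentSeries Λ) (-1) := by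
  intro i hi
  rw [xi, HahnSeries.coeff_single_of_ne hi.ne]

theorem xi_coeff {Λ : Type} [Field Λ] : (xi : LaurentSeries Λ).coeff (-1) = 1 := by
  rw [xi, HahnSeries.coeff_single_same]

/-- order and leading coefficient of `p(X⁻¹)` -/
theorem y0_order {G : Type} [Group G] (S : Setup G) {Λ : Type} [Field Λ] [CharZero Λ] :
    (pv S.p (xi : LaurentSeries Λ)).order = -(S.n : ℤ) ∧
      (pv S.p (xi : LaurentSeries Λ)).leadingCoeff = 1 := by
  obtain ⟨h1, h2⟩ := pv_pole (Λ := Λ) (by norm_num : (-1 : ℤ) < 0) xi_og S.p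
  rw [xi_coeff, one_pow, mul_one, S.cp.monic.leadingCoeff, Rat.cast_one] at h2
  obtain ⟨h3, h4, -⟩ := order_of_og h1 (by rw [h2]; exact one_ne_zero)
  rw [h2] at h4
  rw [S.cp.deg] at h3
  exact ⟨by rw [h3]; ring, h4⟩

/-- the field homomorphism with prescribed leading coefficients at infinity -/
theorem exists_Psi (hL : LaurStmt) (hR : RootsStmt) {Λ : Type} [Field Λ] [CharZero Λ]
    (β : Fin S.k → Λ) (hβ : Function.Injective β) (h1 : ∀ i, β i ^ S.n = 1) :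
    ∃ Ψ : S.N →+* LaurentSeries Λ, Ψ S.Y = pv S.p (xi : LaurentSeries Λ) ∧
      ∀ i, (Ψ (S.x i)).order = -1 ∧ (Ψ (S.x i)).leadingCoeff = β i := by
  obtain ⟨ho, hl⟩ := y0_order S (Λ := Λ)
  have hr : ∀ i, ∃ z : LaurentSeries Λ, z.order = -((1 : ℕ) : ℤ) ∧ z.leadingCoeff = β i ∧
      pv S.p z = pv S.p (xi : LaurentSeries Λ) := by
    intro i
    apply hR.inf_exists Λ S.p S.cp.monic (deg_ne_zero S) _ 1 one_pos
    · rw [ho, S.cp.deg, mul_one]
    · rw [hl, S.cp.deg, h1]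
  choose r r1 r2 r3 using hr
  have hrinj : Function.Injective r := by
    intro i j hij
    apply hβ
    rw [← r2 i, ← r2 j, hij]
  obtain ⟨D, hD⟩ := exists_theta hL Λ
  have hDy : D (pv S.p (xi : LaurentSeries Λ)) ≠ 0 := by
    intro h0
    have h2 := hD (pv S.p (xi : LaurentSeries Λ)) (-(S.n : ℤ))
    rw [h0, HahnSeries.coeff_zero, ← ho, ← HahnSeries.leadingCoeff_eq, hl, ho] at h2
    have h3 : ((-(S.n : ℤ) : ℤ) : Λ) ≠ 0 := by
      have := S.cp.prime.ne_zero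
      exact_mod_cast neg_ne_zero.2 (by exact_mod_cast this : (S.n : ℤ) ≠ 0)
    rw [mul_one] at h2
    exact h3 h2.symm
  obtain ⟨Ψ, -, hΨ⟩ := S.kr.univ (LaurentSeries Λ) (Rat.castHom _) r _ hrinj r3
    (trOver_of_deriv D _ hDy)
  refine ⟨Ψ, ?_, fun i => ?_⟩
  · have hk := k_ge_six S
    rw [← pv_psi S Ψ ⟨0, by omega⟩, hΨ, r3]
  · rw [hΨ]
    exact ⟨r1 i, r2 i⟩

variable {S}

/-- the value is integral if there is no pole -/
theorem fv_int (hA : ActStmt) (F : Fam S) {Λ : Type} [Field Λ] [CharZero Λ]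
    (ψ : S.N →+* LaurentSeries Λ) (c : Fin 3 → Λ) (h : 0 ≤ (ψ S.Y).order) :
    0 ≤ (F.fv ψ (cc c)).order := by
  apply order_nonneg_of_og
  have hY : OG (ψ S.Y) 0 := og_of_le h
  have hz : ∀ z ∈ BB S.x, OG (ψ z) 0 := fun z hz => og_of_le (hA.bb_int G S Λ ψ h z hz)
  have hmul : ∀ a b : LaurentSeries Λ, OG a 0 → OG b 0 → OG (a * b) 0 := by
    intro a b ha hb
    simpa using og_mul ha hb
  have hpow : ∀ (a : LaurentSeries Λ) (n : ℕ), OG a 0 → OG (a ^ n) 0 := by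
    intro a n ha
    simpa using (coeff_pow_og ha n).1
  have hpv : ∀ Q : ℚ[X], OG (pv Q (ψ S.Y)) 0 := by
    intro Q
    rw [pv_eq_sum]
    apply og_sum
    intro i _
    rw [ratCast_laurent]
    exact hmul _ _ (og_C _) (hpow _ _ hY)
  unfold Fam.fv
  refine og_add (og_add ?_ (hmul _ _ two_og (og_sum _ _ fun j _ => hmul _ _ (cc_og c j) ?_)))
    (og_sum _ _ fun i _ => og_sum _ _ fun j _ => hmul _ _ (hmul _ _ (cc_og c i) (cc_og c j))
      (hpv _))
  · obtain ⟨z, hz1, hz2⟩ := F.mem_F00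
    rw [hz2, map_mul]
    exact hmul _ _ hY (hz z hz1)
  · obtain ⟨z, hz1, hz2⟩ := F.mem_F0 j
    rw [hz2, map_mul]
    exact hmul _ _ hY (hz z hz1)

end

/-- leading coefficient and order of the inverse -/
theorem inv_order {Λ : Type} [Field Λ] (f : LaurentSeries Λ) (hf : f ≠ 0) :
    f⁻¹.order = -f.order ∧ f⁻¹.leadingCoeff = f.leadingCoeff⁻¹ := by
  have h1 : f * f⁻¹ = 1 := mul_inv_cancel₀ hf
  have h2 : f⁻¹ ≠ 0 := inv_ne_zero hf
  have h3 := HahnSeries.order_mul hf h2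
  have h4 := HahnSeries.leadingCoeff_mul f f⁻¹
  rw [h1] at h3 h4
  rw [HahnSeries.order_one] at h3
  rw [HahnSeries.leadingCoeff_one] at h4
  exact ⟨by omega, eq_inv_of_mul_eq_one_right h4.symm⟩

/-- the structure of a homomorphism at infinity -/
theorem psi_eq (hL : LaurStmt) (hR : RootsStmt) (hA : ActStmt) {G : Type} [Group G] [Finite G]
    (S : Setup G) {Λ : Type} [Field Λ] [CharZero Λ] (M : ℕ) (hM : 0 < M)
    (Ψ ψ : S.N →+* LaurentSeries Λ) (i₀ : Fin S.k)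
    (hY : Ψ S.Y = pv S.p (xi : LaurentSeries Λ)) (hΨo : ∀ i, (Ψ (S.x i)).order = -1)
    (hΨl : ∀ i, (Ψ (S.x i)).leadingCoeff =
      (ψ (S.x i)).leadingCoeff / (ψ (S.x i₀)).leadingCoeff)
    (hψo : ∀ i, (ψ (S.x i)).order = -(M : ℤ)) :
    0 < (ψ (S.x i₀))⁻¹.order ∧ (ψ (S.x i₀))⁻¹.order = M ∧
      (ψ (S.x i₀))⁻¹.leadingCoeff = ((ψ (S.x i₀)).leadingCoeff)⁻¹ ∧
      ψ = (sbL (ψ (S.x i₀))⁻¹).comp Ψ := by
  have hMZ : (0 : ℤ) < M := by exact_mod_cast hM
  have hne : ψ (S.x i₀) ≠ 0 := by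
    intro h
    have := hψo i₀
    rw [h, HahnSeries.order_zero] at this
    omega
  obtain ⟨h1, h2⟩ := inv_order _ hne
  rw [hψo, neg_neg] at h1
  have hpos : 0 < (ψ (S.x i₀))⁻¹.order := by rw [h1]; exact hMZ
  refine ⟨hpos, h1, h2, ?_⟩
  apply hA.hom_ext G S (LaurentSeries Λ)
  intro i
  set ξ := (ψ (S.x i₀))⁻¹ with hξ
  have hlc0 : (ψ (S.x i₀)).leadingCoeff ≠ 0 := HahnSeries.leadingCoeff_ne_zero.mpr hne
  have hsx : sbL ξ (xi : LaurentSeries Λ) = ψ (S.x i₀) := by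
    have h3 : (xi : LaurentSeries Λ) * HahnSeries.single 1 1 = 1 := by
      rw [xi, HahnSeries.single_mul_single]
      simp
    have h4 := congrArg (sbL ξ) h3
    rw [map_mul, hL.sb_X Λ ξ hpos, map_one] at h4
    rw [hξ] at h4
    have h5 := eq_inv_of_mul_eq_one_left h4
    rw [inv_inv] at h5
    rw [← hξ] at h5
    exact h5
  have ho : (sbL ξ (Ψ (S.x i))).order = -(M : ℤ) := by
    rw [hL.sb_order Λ ξ hpos, hΨo, h1]
    ring
  have hl : (sbL ξ (Ψ (S.x i))).leadingCoeff = (ψ (S.x i)).leadingCoeff := by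
    rw [hL.sb_lead Λ ξ hpos, hΨo, hΨl, h2, zpow_neg_one, inv_inv]
    field_simp
  change ψ (S.x i) = sbL ξ (Ψ (S.x i))
  apply hR.inf_unique Λ S.p S.cp.monic (deg_ne_zero S)
  · rw [hψo]; omega
  · rw [ho]; omega
  · exact hl.symm
  · rw [pv_psi, ← map_pv, pv_psi, hY, map_pv, hsx, pv_psi]

theorem infl (hL : LaurStmt) (hPo : PoleStmt) (hR : RootsStmt) (hA : ActStmt) : InfLStmt := by
  intro G _ _ S F Λ _ _ _ c M u κ hc2 hM hu hκ
  have hk := k_ge_six S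
  have hn : 0 < S.n := S.cp.prime.pos
  have hMZ : (0 : ℤ) < M := by exact_mod_cast hM
  have hu0 : 0 < u := by omega
  have hnu : 0 < S.n * u := Nat.mul_pos hn hu0
  let i₀ : Fin S.k := ⟨0, by omega⟩
  have part1 : ∀ ψ : S.N →+* LaurentSeries Λ,
      F.fv ψ (cc c) = HahnSeries.single (-((S.n * u * M : ℕ) : ℤ)) 1 →
      (∀ i, (ψ (S.x i)).order = -(M : ℤ)) ∧
      (∀ i, κ * (ψ (S.x i)).leadingCoeff ^ (S.n * u) = 1) ∧
      (∀ i j, (ψ (S.x i)).leadingCoeff ^ S.n = (ψ (S.x j)).leadingCoeff ^ S.n) ∧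
      Function.Injective (fun i => (ψ (S.x i)).leadingCoeff) := by
    intro ψ hψ
    have hlt : (ψ S.Y).order < 0 := by
      by_contra h
      rw [not_lt] at h
      have h1 := fv_int hA F ψ c h
      rw [hψ, HahnSeries.order_single one_ne_zero] at h1
      have h2 : (0 : ℤ) < ((S.n * u * M : ℕ) : ℤ) := by exact_mod_cast Nat.mul_pos hnu hM
      omega
    obtain ⟨v, hv, hvo, hord, hlead⟩ := hPo G S F Λ ψ c hc2 hlt
    rw [hψ, HahnSeries.order_single one_ne_zero, ← hu] at hord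
    have hvM : v = M := by
      have h1 : ((S.n * u * M : ℕ) : ℤ) = ((S.n * u * v : ℕ) : ℤ) := by omega
      have h2 : S.n * u * M = S.n * u * v := by exact_mod_cast h1
      exact (Nat.eq_of_mul_eq_mul_left hnu h2).symm
    rw [hvM] at hvo
    have hroot : ∀ i, (ψ S.Y).leadingCoeff = (ψ (S.x i)).leadingCoeff ^ S.n := by
      intro i
      have h := (hR.inf Λ S.p S.cp.monic (deg_ne_zero S) _ (ψ (S.x i)) hlt (pv_psi S ψ i)).2.2
      rw [S.cp.deg] at h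
      exact h
    refine ⟨hvo, ?_, ?_, ?_⟩
    · intro i
      have h := hlead i
      rw [hψ, HahnSeries.leadingCoeff_of_single, ← hu, ← hκ] at h
      exact h.symm
    · intro i j
      rw [← hroot i, ← hroot j]
    · intro i j hij
      apply S.kr.inj
      apply ψ.injective
      apply hR.inf_unique Λ S.p S.cp.monic (deg_ne_zero S)
      · rw [hvo]; omega
      · rw [hvo]; omega
      · exact hij
      · rw [pv_psi, pv_psi]
  have hfvPsi : ∀ (Ψ : S.N →+* LaurentSeries Λ) (ξ : LaurentSeries Λ), 0 < ξ.order →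
      F.fv ((sbL ξ).comp Ψ) (cc c) = sbL ξ (F.fv Ψ (cc c)) := by
    intro Ψ ξ hξ
    exact fv_comp F (sbL ξ) Ψ (cc c) (cc c) (fun i => hL.sb_C Λ ξ hξ (c i))
  have hlc : ∀ ψ : S.N →+* LaurentSeries Λ, (∀ i, (ψ (S.x i)).order = -(M : ℤ)) →
      ∀ i, (ψ (S.x i)).leadingCoeff ≠ 0 := by
    intro ψ h i
    apply HahnSeries.leadingCoeff_ne_zero.mpr
    intro h0
    have := h i
    rw [h0, HahnSeries.order_zero] at this
    omega
  refine ⟨part1, ?_, ?_⟩
  · intro ψ ψ' hψ hψ' hlead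
    obtain ⟨o1, k1, n1, inj1⟩ := part1 ψ hψ
    obtain ⟨o2, k2, n2, inj2⟩ := part1 ψ' hψ'
    have hlc0 := hlc ψ o1 i₀
    obtain ⟨Ψ, hΨY, hΨ⟩ := exists_Psi S hL hR
      (fun i => (ψ (S.x i)).leadingCoeff / (ψ (S.x i₀)).leadingCoeff)
      (fun i j hij => inj1 ((div_left_inj' hlc0).1 hij))
      (fun i => by rw [div_pow, n1 i i₀, div_self (pow_ne_zero _ hlc0)])
    obtain ⟨a1, a2, a3, a4⟩ := psi_eq hL hR hA S M hM Ψ ψ i₀ hΨY (fun i => (hΨ i).1)
      (fun i => (hΨ i).2) o1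
    obtain ⟨b1, b2, b3, b4⟩ := psi_eq hL hR hA S M hM Ψ ψ' i₀ hΨY (fun i => (hΨ i).1)
      (fun i => by rw [(hΨ i).2, hlead i, hlead i₀]) o2
    have hξ : (ψ (S.x i₀))⁻¹ = (ψ' (S.x i₀))⁻¹ := by
      have e1 : sbL (ψ (S.x i₀))⁻¹ (F.fv Ψ (cc c)) =
          HahnSeries.single (-((S.n * u * M : ℕ) : ℤ)) 1 := by
        rw [← hfvPsi Ψ _ a1, ← a4, hψ]
      have e2 : sbL (ψ' (S.x i₀))⁻¹ (F.fv Ψ (cc c)) =
          HahnSeries.single (-((S.n * u * M : ℕ) : ℤ)) 1 := by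
        rw [← hfvPsi Ψ _ b1, ← b4, hψ']
      apply hL.loc Λ (F.fv Ψ (cc c)) _ _ a1 (by rw [a2, b2]) (by rw [a3, b3, hlead])
      · intro a ha
        rw [ha, hL.sb_C Λ _ a1] at e1
        have h1 := congrArg (fun f => HahnSeries.coeff f (-((S.n * u * M : ℕ) : ℤ))) e1
        simp only [HahnSeries.coeff_single_same] at h1
        have h2 : (0 : ℤ) < ((S.n * u * M : ℕ) : ℤ) := by exact_mod_cast Nat.mul_pos hnu hM
        rw [HahnSeries.C_apply, HahnSeries.coeff_single_of_ne (by omega)] at h1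
        exact zero_ne_one h1
      · rw [e1, e2]
    rw [a4, b4, hξ]
  · intro α hα hαn hακ
    have hα0 : ∀ i, α i ≠ 0 := by
      intro i h
      have := hακ i
      rw [h, zero_pow hnu.ne', mul_zero] at this
      exact zero_ne_one this
    obtain ⟨Ψ, hΨY, hΨ⟩ := exists_Psi S hL hR (fun i => α i / α i₀)
      (fun i j hij => hα ((div_left_inj' (hα0 i₀)).1 hij))
      (fun i => by rw [div_pow, hαn i i₀, div_self (pow_ne_zero _ (hα0 i₀))])
    have hlt : (Ψ S.Y).order < 0 := by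
      rw [hΨY, (y0_order S).1]
      omega
    obtain ⟨v, hv, hvo, hord, hlead⟩ := hPo G S F Λ Ψ c hc2 hlt
    have hv1 : v = 1 := by
      have h1 := hvo i₀
      rw [(hΨ i₀).1] at h1
      omega
    rw [hv1, mul_one, ← hu] at hord
    have hl0 := hlead i₀
    rw [← hu, ← hκ, (hΨ i₀).2] at hl0
    simp only [div_self (hα0 i₀), one_pow, mul_one] at hl0
    have hnuZ : (0 : ℤ) < ((S.n * u : ℕ) : ℤ) := by exact_mod_cast hnu
    have hg0 : F.fv Ψ (cc c) ≠ 0 := by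
      intro h
      rw [h, HahnSeries.order_zero] at hord
      omega
    obtain ⟨ξ, hξo, hξl, hξ⟩ := hL.ex Λ (F.fv Ψ (cc c)) M (α i₀)⁻¹ hg0 (by rw [hord]; omega) hMZ
      (by rw [hl0, hord, inv_zpow, zpow_neg, inv_inv, zpow_natCast, hακ])
    have hpos : 0 < ξ.order := by rw [hξo]; exact hMZ
    refine ⟨(sbL ξ).comp Ψ, ?_, fun i => ?_⟩
    · rw [hfvPsi Ψ ξ hpos, hξ, hord]
      congr 2
      push_cast
      ring
    · rw [RingHom.comp_apply, hL.sb_lead Λ ξ hpos, (hΨ i).1, (hΨ i).2, hξl, zpow_neg_one, inv_inv]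
      exact div_mul_cancel₀ _ (hα0 i₀)

end Pool.Agent.Helper74_ALT.H72
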